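import Pool.Agent.Q41.SU.Stm2
import Pool.Agent.Q41.SU.Stm3
import Pool.Agent.Q41.SU.Stm6

/-!
# The numerical contradiction (job SU-A5 of helper41's project)
-/

namespace Pool.Agent.Q128.SU

open Finset Pool.Agent.Q41.SU

universe u

section LSs

variable {ι : Type*} [Fintype ι] [DecidableEq ι]

lemma one_le_cnt (o : ι → ι → ℤ) (i : ℕ) (l : ι) : 1 ≤ cnt o i l := by
  unfold cnt
  refine Finset.card_pos.mpr ⟨l, ?_⟩
  simp

lemma cnt_mono (o : ι → ι → ℤ) {i i' : ℕ} (h : i ≤ i') (l : ι) : cnt o i' l ≤ cnt o i l := by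
  unfold cnt
  refine Finset.card_le_card ?_
  intro m hm
  simp only [mem_filter, mem_univ, true_and] at hm ⊢
  rcases hm with h1 | h1
  · exact Or.inl h1
  · refine Or.inr (le_trans ?_ h1)
    exact_mod_cast h

lemma cnt_le_card (o : ι → ι → ℤ) (i : ℕ) (l : ι) : cnt o i l ≤ Fintype.card ι := by
  unfold cnt
  exact Finset.card_le_univ _

lemma LS_mono {F G : ℕ → ℝ} {M : ℕ} {o : ι → ι → ℤ}
    (h : ∀ i ∈ Finset.Icc 1 M, ∀ l, F (cnt o i l) ≤ G (cnt o i l)) : LS F M o ≤ LS G M o := by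
  unfold LS
  refine Finset.sum_le_sum fun i hi => Finset.sum_le_sum fun l _ => ?_
  exact div_le_div_of_nonneg_right (h i hi l) (Nat.cast_nonneg _)

lemma LS_add (F G : ℕ → ℝ) (M : ℕ) (o : ι → ι → ℤ) :
    LS (fun n => F n + G n) M o = LS F M o + LS G M o := by
  unfold LS
  rw [← Finset.sum_add_distrib]
  refine Finset.sum_congr rfl fun i _ => ?_
  rw [← Finset.sum_add_distrib]
  refine Finset.sum_congr rfl fun l _ => ?_
  rw [add_div]

lemma LS_smul (c : ℝ) (F : ℕ → ℝ) (M : ℕ) (o : ι → ι → ℤ) :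
    LS (fun n => c * F n) M o = c * LS F M o := by
  unfold LS
  rw [Finset.mul_sum]
  refine Finset.sum_congr rfl fun i _ => ?_
  rw [Finset.mul_sum]
  refine Finset.sum_congr rfl fun l _ => ?_
  rw [mul_div_assoc]

end LSs

/-- the coefficient of the loss function -/
lemma coef_le (a b : ℝ) (ha : 0 ≤ a) (hb : 0 ≤ b) (hab : 0 < a + b) :
    (a + b) / (2 * ((a + 1) * (b + 1) - 1)) ≤ 1 / (2 * (a + 1)) + 1 / (2 * (b + 1)) := by
  have h1 : 0 < (a + 1) * (b + 1) - 1 := by nlinarith [mul_nonneg ha hb]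
  have h2 : 1 / (2 * (a + 1)) + 1 / (2 * (b + 1)) = (a + b + 2) / (2 * ((a + 1) * (b + 1))) := by
    field_simp
    ring
  rw [h2, div_le_div_iff₀ (by positivity) (by positivity)]
  nlinarith [mul_nonneg ha hb]

lemma kap_le_two (hphi : S_phi) (a b n : ℕ) (hab : 1 ≤ a + b) (hn : n ≤ (a + 1) * (b + 1)) :
    kap a b n ≤ 2 * n := by
  obtain ⟨-, h2, -, h4⟩ := hphi a b n hn
  have hc := coef_le (a : ℝ) (b : ℝ) (Nat.cast_nonneg _) (Nat.cast_nonneg _)
    (by exact_mod_cast hab)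
  unfold kap
  have hnn : (0 : ℝ) ≤ n * ((n : ℝ) - 1) := by
    rcases Nat.eq_zero_or_pos n with h0 | h0
    · simp [h0]
    · have : (1 : ℝ) ≤ n := by exact_mod_cast h0
      exact mul_nonneg (by positivity) (by linarith)
  have h5 := mul_le_mul_of_nonneg_right hc hnn
  have h6 : (1 / (2 * ((a : ℝ) + 1)) + 1 / (2 * ((b : ℝ) + 1))) * ((n : ℝ) * ((n : ℝ) - 1)) =
      (n : ℝ) * (n - 1) / (2 * (a + 1)) + (n : ℝ) * (n - 1) / (2 * (b + 1)) := by ring
  linarith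

lemma kap_le_div (Θ b n : ℕ) (hΘ : 1 ≤ Θ) (hb : 1 ≤ b) :
    kap (Θ * b) b n ≤ n * ((n : ℝ) - 1) / b := by
  have hb' : (1 : ℝ) ≤ b := by exact_mod_cast hb
  have hΘ' : (1 : ℝ) ≤ Θ := by exact_mod_cast hΘ
  have hab : (b : ℝ) ≤ ((Θ * b : ℕ) : ℝ) := by
    push_cast
    nlinarith
  have hc := coef_le ((Θ * b : ℕ) : ℝ) (b : ℝ) (Nat.cast_nonneg _) (Nat.cast_nonneg _)
    (by linarith)
  have hnn : (0 : ℝ) ≤ n * ((n : ℝ) - 1) := by
    rcases Nat.eq_zero_or_pos n with h0 | h0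
    · simp [h0]
    · have : (1 : ℝ) ≤ n := by exact_mod_cast h0
      exact mul_nonneg (by positivity) (by linarith)
  have h1 : 1 / (2 * (((Θ * b : ℕ) : ℝ) + 1)) ≤ 1 / (2 * b) := by
    apply one_div_le_one_div_of_le (by linarith)
    linarith
  have h2 : 1 / (2 * ((b : ℝ) + 1)) ≤ 1 / (2 * b) := by
    apply one_div_le_one_div_of_le (by linarith)
    linarith
  have h3 : 1 / (2 * (b : ℝ)) + 1 / (2 * b) = 1 / b := by
    field_simp
    ring
  have h4 : (((Θ * b : ℕ) : ℝ) + b) / (2 * ((((Θ * b : ℕ) : ℝ) + 1) * ((b : ℝ) + 1) - 1)) ≤ 1 / b := by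
    linarith
  have h5 := mul_le_mul_of_nonneg_right h4 hnn
  unfold kap
  have h6 : (1 / (b : ℝ)) * ((n : ℝ) * ((n : ℝ) - 1)) = n * ((n : ℝ) - 1) / b := by ring
  have h7 : (0 : ℝ) ≤ (phi 0 1 (Θ * b) b n : ℝ) := Nat.cast_nonneg _
  have h8 : (0 : ℝ) ≤ (phi 1 0 (Θ * b) b n : ℝ) := Nat.cast_nonneg _
  linarith

lemma gam_ge (hnum : S_num) (hphi : S_phi) (Θ ν b n : ℕ) (hΘ : 1 ≤ Θ) (hν : 1 ≤ ν)
    (hb : 100 * Θ * ν ^ 2 ≤ b) (hn1 : 1 ≤ n) (hn : 2 * n ≤ (Θ * b + 1) * (b + 1)) :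
    (Θ : ℝ) * ((b : ℝ) / (48 * (((Θ * b + 1) * (b + 1) : ℕ) : ℝ))) * (n * ((n : ℝ) - 1)) +
      (Θ : ℝ) * ν * kap (Θ * b) b n ≤ gam (Θ * b) b Θ n := by
  have hb1 : 1 ≤ b := by
    refine le_trans ?_ hb
    have : 1 ≤ Θ * ν ^ 2 := Nat.mul_pos hΘ (pow_pos hν 2)
    nlinarith
  have hb' : (1 : ℝ) ≤ b := by exact_mod_cast hb1
  have hΘ' : (1 : ℝ) ≤ Θ := by exact_mod_cast hΘ
  have hν' : (1 : ℝ) ≤ ν := by exact_mod_cast hν
  have hnN : n ≤ (Θ * b + 1) * (b + 1) := by omega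
  obtain ⟨p1, -, p3, -⟩ := hphi (Θ * b) b n hnN
  have hk1 := kap_le_two hphi (Θ * b) b n (by nlinarith) hnN
  have hk2 := kap_le_div Θ b n hΘ hb1
  have hn1' : (1 : ℝ) ≤ n := by exact_mod_cast hn1
  have hnn : (0 : ℝ) ≤ n * ((n : ℝ) - 1) := mul_nonneg (by positivity) (by linarith)
  rcases Nat.lt_or_ge n 2 with h2 | h2
  · have h1 : n = 1 := by omega
    subst h1
    have e1 : kap (Θ * b) b 1 ≤ 0 := by
      unfold kap
      have h7 : (0 : ℝ) ≤ (phi 0 1 (Θ * b) b 1 : ℝ) := Nat.cast_nonneg _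
      have h8 : (0 : ℝ) ≤ (phi 1 0 (Θ * b) b 1 : ℝ) := Nat.cast_nonneg _
      simp only [Nat.cast_one, sub_self, mul_zero]
      linarith
    have e2 : (0 : ℝ) ≤ gam (Θ * b) b Θ 1 := by
      unfold gam
      simp only [Nat.cast_one, sub_self, mul_zero, zero_div] at p1 p3
      have h9 : (0 : ℝ) ≤ (phi 1 Θ (Θ * b) b 1 : ℝ) := Nat.cast_nonneg _
      nlinarith
    have e3 : (Θ : ℝ) * ν * kap (Θ * b) b 1 ≤ 0 :=
      mul_nonpos_of_nonneg_of_nonpos (by positivity) e1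
    simp only [Nat.cast_one, sub_self, mul_zero]
    linarith
  · have hc := hnum Θ ν b n hΘ hν hb h2 hn
    have hkm : kap (Θ * b) b n ≤ min (2 * (n : ℝ)) (n * (n - 1) / b) := le_min hk1 hk2
    have hkm' := mul_le_mul_of_nonneg_left hkm (by positivity : (0 : ℝ) ≤ (Θ : ℝ) * ν)
    -- the unweighted terms
    have p3' : (Θ : ℝ) * phi 0 1 (Θ * b) b n ≤ n * (n - 1) / (2 * b) := by
      have h1 := mul_le_mul_of_nonneg_left p3 (by positivity : (0 : ℝ) ≤ (Θ : ℝ))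
      refine le_trans h1 ?_
      rw [← mul_div_assoc, div_le_div_iff₀ (by positivity) (by positivity)]
      push_cast
      have : 0 ≤ (n : ℝ) * ((n : ℝ) - 1) := hnn
      nlinarith
    have p1' : (phi 1 0 (Θ * b) b n : ℝ) ≤ n * (n - 1) / (2 * b) := by
      refine le_trans p1 ?_
      apply div_le_div_of_nonneg_left hnn (by positivity)
      linarith
    have hsum : (n : ℝ) * (n - 1) / (2 * b) + (n : ℝ) * (n - 1) / (2 * b) = n * (n - 1) / b := by
      field_simp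
      ring
    have hfin : (Θ : ℝ) * ((b : ℝ) / (48 * (((Θ * b + 1) * (b + 1) : ℕ) : ℝ))) *
        (n * ((n : ℝ) - 1)) ≤ 1 / 48 * (n * (n - 1)) / b := by
      have h1 : (Θ : ℝ) * ((b : ℝ) / (48 * (((Θ * b + 1) * (b + 1) : ℕ) : ℝ))) ≤ 1 / 48 / b := by
        rw [← mul_div_assoc, div_div, div_le_div_iff₀ (by positivity) (by positivity)]
        push_cast
        nlinarith
      have h2 := mul_le_mul_of_nonneg_right h1 hnn
      refine le_trans h2 (le_of_eq ?_)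
      ring
    unfold gam
    have e49 : (49 : ℝ) / 48 * (n * (n - 1)) / b = n * (n - 1) / b + 1 / 48 * (n * (n - 1)) / b := by
      ring
    linarith

/-- the pure numerical contradiction -/
lemma num_false {Θ b N D η ν Q ℰ cS X G : ℝ} (hΘ : 2 ≤ Θ) (hb : 2 ≤ b) (hη : 0 < η) (hν : 1 ≤ ν)
    (hQ : 1 ≤ Q) (hD : 0 < D) (hℰ : 0 < ℰ) (hN1 : Θ * b ^ 2 ≤ N) (hN2 : N ≤ 4 * Θ * b ^ 2)
    (hcS : cS ≤ Q * ℰ) (hΘη : 800 * Q * ν ^ 2 ≤ Θ * η)
    (hDη : 6400 * ν * Θ ≤ D * η) (hX : η * N ^ 2 * ℰ / 2 ≤ X) (hG : G ≤ 4 * N ^ 2 * ℰ / D)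
    (h : Θ * (b / (48 * N)) * X ≤ cS * (ν ^ 2 * (b * N) + 1 + Θ) + Θ * ν * (1 / b * G)) :
    False := by
  have hb0 : 0 < b := by linarith
  have hΘ0 : 0 < Θ := by linarith
  have hN0 : 0 < N := lt_of_lt_of_le (by positivity) hN1
  have hν0 : 0 < ν := by linarith
  have hQ0 : 0 < Q := by linarith
  -- left side
  have h1 : Θ * b * N * η * ℰ / 96 ≤ Θ * (b / (48 * N)) * X := by
    have h2 : Θ * (b / (48 * N)) * (η * N ^ 2 * ℰ / 2) ≤ Θ * (b / (48 * N)) * X :=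
      mul_le_mul_of_nonneg_left hX (by positivity)
    refine le_trans (le_of_eq ?_) h2
    field_simp
    ring
  -- first term on the right
  have h3 : cS * (ν ^ 2 * (b * N) + 1 + Θ) ≤ Θ * b * N * η * ℰ / 400 := by
    have hpos : 0 ≤ ν ^ 2 * (b * N) + 1 + Θ := by positivity
    have h4 := mul_le_mul_of_nonneg_right hcS hpos
    have hbN : 1 + Θ ≤ ν ^ 2 * (b * N) := by
      have h5 : Θ * b ^ 2 * b ≤ N * b := mul_le_mul_of_nonneg_right hN1 hb0.le
      have h6 : (8 : ℝ) ≤ b ^ 2 * b := by nlinarith [sq_nonneg (b - 2)]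
      have h7 : Θ * 8 ≤ Θ * (b ^ 2 * b) := mul_le_mul_of_nonneg_left h6 hΘ0.le
      have h8 : 1 * (b * N) ≤ ν ^ 2 * (b * N) :=
        mul_le_mul_of_nonneg_right (by nlinarith) (by positivity)
      nlinarith
    have h9 : Q * ℰ * (ν ^ 2 * (b * N) + 1 + Θ) ≤ Q * ℰ * (2 * (ν ^ 2 * (b * N))) :=
      mul_le_mul_of_nonneg_left (by linarith) (by positivity)
    have h10 : 800 * Q * ν ^ 2 * (b * N * ℰ) ≤ Θ * η * (b * N * ℰ) :=
      mul_le_mul_of_nonneg_right hΘη (by positivity)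
    nlinarith
  -- second term on the right
  have h11 : Θ * ν * (1 / b * G) ≤ Θ * b * N * η * ℰ / 400 := by
    have h12 : Θ * ν * (1 / b * G) ≤ Θ * ν * (1 / b * (4 * N ^ 2 * ℰ / D)) := by
      apply mul_le_mul_of_nonneg_left _ (by positivity)
      exact mul_le_mul_of_nonneg_left hG (by positivity)
    refine le_trans h12 ?_
    have h13 : Θ * ν * (1 / b * (4 * N ^ 2 * ℰ / D)) = (4 * Θ * ν * N * ℰ) * N / (b * D) := by
      field_simp
    rw [h13, div_le_iff₀ (by positivity)]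
    have h14 : (4 * Θ * ν * N * ℰ) * N ≤ (4 * Θ * ν * N * ℰ) * (4 * Θ * b ^ 2) :=
      mul_le_mul_of_nonneg_left hN2 (by positivity)
    have h15 : (6400 * ν * Θ) * (Θ * b ^ 2 * N * ℰ) ≤ (D * η) * (Θ * b ^ 2 * N * ℰ) :=
      mul_le_mul_of_nonneg_right hDη (by positivity)
    nlinarith
  have hp : 0 < Θ * b * N * η * ℰ := by positivity
  linarith

/-- (A5) -/
theorem numcore (hnum : S_num) (hphi : S_phi) (hlsq : S_lsq) : S_numcore.{u} := by
  classical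
  intro d ν N₁ c' η hd hν hc hc1 hη
  -- the choices
  obtain ⟨Θ, hΘ2, hΘη⟩ : ∃ Θ : ℕ, 2 ≤ Θ ∧ 800 * ((ν.factorial : ℕ) : ℝ) * (ν : ℝ) ^ 2 ≤ Θ * η := by
    obtain ⟨m, hm⟩ := exists_nat_ge (800 * ((ν.factorial : ℕ) : ℝ) * (ν : ℝ) ^ 2 / η)
    refine ⟨max 2 m, le_max_left _ _, ?_⟩
    have h1 : (m : ℝ) ≤ ((max 2 m : ℕ) : ℝ) := by exact_mod_cast le_max_right _ _
    rw [div_le_iff₀ hη] at hm
    nlinarith
  obtain ⟨n, hn1, hn2⟩ : ∃ n : ℕ, 8 ≤ c' * (d : ℝ) ^ n ∧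
      6400 * (ν : ℝ) * Θ ≤ (d : ℝ) ^ n * η := by
    obtain ⟨n, hn⟩ := pow_unbounded_of_one_lt (max (8 / c') (6400 * (ν : ℝ) * Θ / η))
      (show (1 : ℝ) < (d : ℝ) by exact_mod_cast (by omega : 1 < d))
    refine ⟨n, ?_, ?_⟩
    · have := lt_of_le_of_lt (le_max_left _ _) hn
      rw [div_lt_iff₀ hc] at this
      linarith
    · have := lt_of_le_of_lt (le_max_right _ _) hn
      rw [div_lt_iff₀ hη] at this
      linarith
  obtain ⟨b, hb100, hb2, hbN, hbd⟩ : ∃ b : ℕ, 100 * Θ * ν ^ 2 ≤ b ∧ 2 ≤ b ∧ N₁ ≤ b ∧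
      d ^ (2 * n) ≤ b := ⟨100 * Θ * ν ^ 2 + 2 + N₁ + d ^ (2 * n), by omega, by omega, by omega,
        by omega⟩
  have hbNN : b ≤ (Θ * b + 1) * (b + 1) := by
    have h1 : 1 * (b + 1) ≤ (Θ * b + 1) * (b + 1) := Nat.mul_le_mul_right _ (by omega)
    omega
  refine ⟨Θ, b, n, hΘ2, by omega, hbN.trans hbNN, hbd.trans hbNN, ?_⟩
  intro A T₀ S hS hSne Γ _ hΓ e he R En M o ho hzero hlow hgood hR hcnt hen hmi
  -- abbreviations
  set N : ℝ := (((Θ * b + 1) * (b + 1) : ℕ) : ℝ) with hNdef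
  have hd0 : (0 : ℝ) < (d : ℝ) ^ n := by
    have : (0 : ℝ) < d := by exact_mod_cast (by omega : 0 < d)
    positivity
  have hΘ' : (2 : ℝ) ≤ Θ := by exact_mod_cast hΘ2
  have hb' : (2 : ℝ) ≤ b := by exact_mod_cast hb2
  have hν' : (1 : ℝ) ≤ ν := by exact_mod_cast hν
  have hN1 : (Θ : ℝ) * (b : ℝ) ^ 2 ≤ N := by
    rw [hNdef]
    push_cast
    nlinarith
  have hN2 : N ≤ 4 * (Θ : ℝ) * (b : ℝ) ^ 2 := by
    rw [hNdef]
    push_cast
    nlinarith [mul_nonneg (by linarith : (0:ℝ) ≤ (Θ:ℝ) - 2) (by linarith : (0:ℝ) ≤ (b:ℝ) - 2)]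
  have hN0 : 0 < N := lt_of_lt_of_le (by positivity) hN1
  have hsplit : ∀ f : A → ℝ, ∑ t ∈ T₀, f t = ∑ t ∈ T₀ \ S, f t + ∑ t ∈ S, f t := fun f =>
    (Finset.sum_sdiff hS).symm
  have hepos : ∀ t ∈ T₀, (0 : ℝ) < e t := fun t ht => by exact_mod_cast (he t ht).1
  -- the sum of the contact orders
  set O : A → Γ → ℝ := fun t g => ∑ l, ∑ l' ∈ univ.erase l, (o t g l l' : ℝ) with hO
  have hO0 : ∀ t ∈ T₀, ∀ g, 0 ≤ O t g := by
    intro t ht g
    refine Finset.sum_nonneg fun l _ => Finset.sum_nonneg fun l' hl' => ?_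
    have := (ho t ht g l l' (Finset.ne_of_mem_erase hl').symm).1
    exact_mod_cast this
  -- the energy of the bad places
  set ℰ : ℝ := ∑ t ∈ S, ∑ g, (R t g : ℝ) / e t with hℰ
  have hcS : (S.card : ℝ) ≤ ((ν.factorial : ℕ) : ℝ) * ℰ := by
    have h1 : ∑ t ∈ S, (1 : ℝ) ≤ ∑ t ∈ S, ((ν.factorial : ℕ) : ℝ) * ∑ g, (R t g : ℝ) / e t := by
      refine Finset.sum_le_sum fun t ht => ?_
      obtain ⟨g, hg⟩ := hR t ht
      have h2 : (R t g : ℝ) / e t ≤ ∑ g, (R t g : ℝ) / e t :=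
        Finset.single_le_sum (f := fun g => (R t g : ℝ) / e t)
          (fun g _ => by positivity) (Finset.mem_univ g)
      have h3 : (1 : ℝ) / e t ≤ (R t g : ℝ) / e t :=
        div_le_div_of_nonneg_right (by exact_mod_cast hg) (hepos t (hS ht)).le
      have h4 : (1 : ℝ) ≤ ((ν.factorial : ℕ) : ℝ) * (1 / e t) := by
        rw [mul_one_div, le_div_iff₀ (hepos t (hS ht)), one_mul]
        exact_mod_cast (he t (hS ht)).2
      have h5 : ((ν.factorial : ℕ) : ℝ) * (1 / e t) ≤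
          ((ν.factorial : ℕ) : ℝ) * ∑ g, (R t g : ℝ) / e t :=
        mul_le_mul_of_nonneg_left (h3.trans h2) (by positivity)
      linarith
    rw [← Finset.mul_sum] at h1
    simpa using h1
  have hcard : (1 : ℝ) ≤ S.card := by exact_mod_cast hSne.card_pos
  have hfac : (1 : ℝ) ≤ ((ν.factorial : ℕ) : ℝ) := by exact_mod_cast ν.factorial_pos
  have hℰ0 : 0 < ℰ := by
    by_contra hcon
    push Not at hcon
    nlinarith
  -- the energies of the good places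
  have hlowS : -(4 * N ^ 2 * ℰ / (d : ℝ) ^ n) ≤ ∑ t ∈ S, ∑ g, En t g / e t := by
    have h1 : ∑ t ∈ S, ∑ g, -(4 * N ^ 2 * R t g / (d : ℝ) ^ n) / e t ≤
        ∑ t ∈ S, ∑ g, En t g / e t :=
      Finset.sum_le_sum fun t ht => Finset.sum_le_sum fun g _ =>
        div_le_div_of_nonneg_right (hlow t (hS ht) g) (hepos t (hS ht)).le
    refine le_trans (le_of_eq ?_) h1
    rw [hℰ, Finset.mul_sum, Finset.sum_div, ← Finset.sum_neg_distrib]
    refine Finset.sum_congr rfl fun t _ => ?_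
    rw [Finset.mul_sum, Finset.sum_div, ← Finset.sum_neg_distrib]
    refine Finset.sum_congr rfl fun g _ => ?_
    ring
  have hz := hzero
  rw [hsplit] at hz
  have hG : ∑ t ∈ T₀ \ S, ∑ g, En t g / e t ≤ 4 * N ^ 2 * ℰ / (d : ℝ) ^ n := by linarith
  have hG0 : 0 ≤ ∑ t ∈ T₀ \ S, ∑ g, En t g / e t := by
    refine Finset.sum_nonneg fun t ht => Finset.sum_nonneg fun g _ => ?_
    rw [Finset.mem_sdiff] at ht
    rw [hgood t ht.1 ht.2 g]
    exact div_nonneg (hO0 t ht.1 g) (hepos t ht.1).le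
  -- the contact orders of the bad places
  have hX : η * N ^ 2 * ℰ / 2 ≤ ∑ t ∈ S, ∑ g, O t g / e t := by
    have h1 : ∑ t ∈ S, ∑ g, (η * N ^ 2 * R t g - η / c' * (En t g + 4 * N ^ 2 * R t g / (d : ℝ) ^ n)) /
        e t ≤ ∑ t ∈ S, ∑ g, O t g / e t := by
      refine Finset.sum_le_sum fun t ht => Finset.sum_le_sum fun g _ =>
        div_le_div_of_nonneg_right ?_ (hepos t (hS ht)).le
      have hlow' := hlow t (hS ht) g
      have hO0' := hO0 t (hS ht) g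
      have hpos : 0 ≤ En t g + 4 * N ^ 2 * R t g / (d : ℝ) ^ n := by linarith
      rcases Nat.eq_zero_or_pos (R t g) with hR0 | hR0
      · rw [hR0]
        rw [hR0] at hpos
        have := mul_nonneg (by positivity : 0 ≤ η / c') hpos
        simp only [Nat.cast_zero, mul_zero] at this ⊢
        linarith
      · rcases le_or_gt (En t g) (c' * N ^ 2 * R t g) with h2 | h2
        · have h3 := hen t ht g hR0 h2
          have := mul_nonneg (by positivity : 0 ≤ η / c') hpos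
          have h4 : O t g = ∑ l, ∑ l' ∈ univ.erase l, (o t g l l' : ℝ) := rfl
          linarith
        · have h3 : η / c' * (c' * N ^ 2 * R t g) ≤ η / c' * (En t g +
              4 * N ^ 2 * R t g / (d : ℝ) ^ n) := by
            apply mul_le_mul_of_nonneg_left _ (by positivity)
            have : 0 ≤ 4 * N ^ 2 * R t g / (d : ℝ) ^ n := by positivity
            linarith
          have h4 : η / c' * (c' * N ^ 2 * R t g) = η * N ^ 2 * R t g := by
            field_simp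
          linarith
    refine le_trans ?_ h1
    have h5 : ∑ t ∈ S, ∑ g, (η * N ^ 2 * R t g - η / c' *
        (En t g + 4 * N ^ 2 * R t g / (d : ℝ) ^ n)) / e t =
        η * N ^ 2 * ℰ - η / c' * (∑ t ∈ S, ∑ g, En t g / e t + 4 * N ^ 2 / (d : ℝ) ^ n * ℰ) := by
      rw [hℰ, Finset.mul_sum, Finset.mul_sum, ← Finset.sum_add_distrib, Finset.mul_sum,
        ← Finset.sum_sub_distrib]
      refine Finset.sum_congr rfl fun t _ => ?_
      rw [Finset.mul_sum, Finset.mul_sum, ← Finset.sum_add_distrib, Finset.mul_sum,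
        ← Finset.sum_sub_distrib]
      refine Finset.sum_congr rfl fun g _ => ?_
      ring
    rw [h5]
    have h6 : ∑ t ∈ S, ∑ g, En t g / e t ≤ 0 := by linarith
    have h7 : η / c' * (∑ t ∈ S, ∑ g, En t g / e t + 4 * N ^ 2 / (d : ℝ) ^ n * ℰ) ≤
        η / c' * (4 * N ^ 2 / (d : ℝ) ^ n * ℰ) :=
      mul_le_mul_of_nonneg_left (by linarith) (by positivity)
    have h8 : η / c' * (4 * N ^ 2 / (d : ℝ) ^ n * ℰ) ≤ η * N ^ 2 * ℰ / 2 := by
      have h9 : η / c' * (4 * N ^ 2 / (d : ℝ) ^ n * ℰ) =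
          (4 * η * N ^ 2 * ℰ) / (c' * (d : ℝ) ^ n) := by
        field_simp
      rw [h9, div_le_div_iff₀ (by positivity) (by norm_num)]
      have h10 : 8 * (η * N ^ 2 * ℰ) ≤ c' * (d : ℝ) ^ n * (η * N ^ 2 * ℰ) :=
        mul_le_mul_of_nonneg_right hn1 (by positivity)
      linarith
    linarith
  -- the gain at the bad places
  have hgam : (Θ : ℝ) * ((b : ℝ) / (48 * N)) * ∑ t ∈ S, ∑ g, O t g / e t +
      Θ * ν * ∑ t ∈ S, ∑ g, LS (kap (Θ * b) b) M (o t g) / e t ≤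
      ∑ t ∈ S, ∑ g, LS (gam (Θ * b) b Θ) M (o t g) / e t := by
    rw [Finset.mul_sum, Finset.mul_sum, ← Finset.sum_add_distrib]
    refine Finset.sum_le_sum fun t ht => ?_
    rw [Finset.mul_sum, Finset.mul_sum, ← Finset.sum_add_distrib]
    refine Finset.sum_le_sum fun g _ => ?_
    have h1 : LS (fun m => (Θ : ℝ) * ((b : ℝ) / (48 * N)) * (m * ((m : ℝ) - 1)) +
        (Θ : ℝ) * ν * kap (Θ * b) b m) M (o t g) ≤ LS (gam (Θ * b) b Θ) M (o t g) := by
      refine LS_mono fun i hi l => ?_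
      have hi1 : 1 ≤ i := (Finset.mem_Icc.mp hi).1
      have hc1' := cnt_mono (o t g) hi1 l
      have hc2 := hcnt t ht g l
      exact gam_ge hnum hphi Θ ν b _ (by omega) hν hb100 (one_le_cnt _ _ _) (by omega)
    rw [LS_add, LS_smul, LS_smul, hlsq (II (Θ * b) b) M (o t g) (fun l m hlm =>
      ho t (hS ht) g l m hlm)] at h1
    have h2 := div_le_div_of_nonneg_right h1 (hepos t (hS ht)).le
    refine le_trans (le_of_eq ?_) h2
    rw [hO]
    ring
  -- the loss at the good places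
  have hkap : ∑ t ∈ T₀ \ S, ∑ g, LS (kap (Θ * b) b) M (o t g) / e t ≤
      1 / b * ∑ t ∈ T₀ \ S, ∑ g, En t g / e t := by
    rw [Finset.mul_sum]
    refine Finset.sum_le_sum fun t ht => ?_
    rw [Finset.mul_sum]
    refine Finset.sum_le_sum fun g _ => ?_
    rw [Finset.mem_sdiff] at ht
    have h1 : LS (kap (Θ * b) b) M (o t g) ≤
        LS (fun m => 1 / (b : ℝ) * ((m : ℝ) * ((m : ℝ) - 1))) M (o t g) := by
      refine LS_mono fun i _ l => ?_
      refine le_trans (kap_le_div Θ b _ (by omega) (by omega)) (le_of_eq ?_)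
      ring
    rw [LS_smul, hlsq (II (Θ * b) b) M (o t g) (fun l m hlm => ho t ht.1 g l m hlm),
      ← hgood t ht.1 ht.2 g] at h1
    have h2 := div_le_div_of_nonneg_right h1 (hepos t ht.1).le
    refine le_trans h2 (le_of_eq ?_)
    ring
  -- the contradiction
  rw [hsplit (fun t => ∑ g, LS (kap (Θ * b) b) M (o t g) / e t)] at hmi
  have hfin : (Θ : ℝ) * ((b : ℝ) / (48 * N)) * ∑ t ∈ S, ∑ g, O t g / e t ≤
      (S.card : ℝ) * ((ν : ℝ) ^ 2 * (b * N) + 1 + Θ) +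
        Θ * ν * (1 / b * ∑ t ∈ T₀ \ S, ∑ g, En t g / e t) := by
    have h1 := mul_le_mul_of_nonneg_left hkap (by positivity : (0 : ℝ) ≤ (Θ : ℝ) * ν)
    have h2 : ((b * ((Θ * b + 1) * (b + 1)) : ℕ) : ℝ) = b * N := by
      rw [hNdef]
      push_cast
      ring
    rw [h2] at hmi
    nlinarith
  exact num_false hΘ' hb' hη hν' hfac hd0 hℰ0 hN1 hN2 hcS (by linarith) (by linarith) hX hG hfin

end Pool.Agent.Q128.SU
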